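import Pool.Agent.Q107.Broadcast.Nine

/-!
# Highly connected graphs with `α_bnr > Γ_b`

The definitions `ecc`, `IsBroadcast`, `IsMinDominating`, `upperBroadcastNum`, `IsBnIndep`,
`IsIrredundant` and `bnrIndepNum` are in `Pool.Agent.Q107.Broadcast.Defs`.
-/

set_option autoImplicit false

namespace Pool.Agent.Results.MP_20154b_co.HighlyConnected

open SimpleGraph Q107.Broadcast

/-- `G` is `k`-connected: it has more than `k` vertices and it stays connected whenever fewer than
`k` vertices are deleted. -/
def IsKConnected {V : Type} [Fintype V] (G : SimpleGraph V) (k : ℕ) : Prop :=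
  k < Fintype.card V ∧ ∀ S : Finset V, S.card < k → (G.induce {v | v ∉ S}).Connected

/-- For every `k ≥ 2` there is a finite connected `k`-connected graph `G` with
`α_bnr(G) > Γ_b(G)`; in particular (`k = 2`) a 2-connected one. -/
theorem result (k : ℕ) (hk : 2 ≤ k) :
    ∃ (V : Type) (_ : Fintype V) (G : SimpleGraph V), G.Connected ∧ IsKConnected G k ∧
      upperBroadcastNum G < bnrIndepNum G := by
  have h := blow9 k (by omega)
  refine ⟨Fin 9 × Fin k, inferInstance, blow g9 k, ?_, ⟨?_, ?_⟩, ?_⟩
  · rw [connected_iff]
    exact ⟨fun x y => (blow_table g9_connected x y).1, ⟨(0, ⟨0, by omega⟩)⟩⟩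
  · rw [Fintype.card_prod, Fintype.card_fin, Fintype.card_fin]
    omega
  · exact fun S hS => blow_connected g9_connected S hS
  · omega

end Pool.Agent.Results.MP_20154b_co.HighlyConnected
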